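import Pool.Agent.helper34.XL.FIN

/-!
# Tate characters of products of Fermat varieties come from an explicit level

`π : Fin (2d) → Fin s` describes a product of `s` Fermat varieties of degree `m`. Up to standard
elements (pairs and Davenport–Hasse elements, all algebraic) every Tate character of every level
`m` is a Tate character of the explicit level
`level d = ∏ p^(1 + ⌊log_p (12d/(p-1))⌋ + ⌊6d/(p-1)⌋)` (`p ≤ 12d+1` prime), which divides `(24d)!`;
all but `O(m^(d-e))` Tate characters need fewer than `2e` entries.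
-/

namespace Pool.Agent.Results.MP_3703a7_ag.ExplicitLevel

open Pool.Agent.helper76.FV Pool.Agent.helper34.DH Pool.Agent.helper34.EL

theorem result (d : ℕ) {s : ℕ} (π : Fin (2 * d) → Fin s) :
    level d ∣ (24 * d).factorial ∧ ∃ C : ℕ, ∀ m : ℕ, 0 < m →
      (∀ a : Fin (2 * d) → ZMod m, IsTateChar m π a ↔
        (∀ i, a i ≠ 0) ∧ BlockZero π a ∧ ∃ e ≤ d, RedTo (level d) a e) ∧
      ∀ e : ℕ, m ^ e * Set.ncard {a : Fin (2 * d) → ZMod m | IsTateChar m π a ∧
        ¬ ∃ e' < e, RedTo (level d) a e'} ≤ C * m ^ d :=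
  ⟨level_dvd_fact d, bounded_level_fact d π⟩

end Pool.Agent.Results.MP_3703a7_ag.ExplicitLevel
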