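import Mathlib

/-!
Two-generated groups with few finite supplements.

Let `G = ⟨a, b⟩` be infinite and let `U` be a normal subgroup of finite index. If the finite
subgroups `K` of `G` with `K U = G` fall into finitely many conjugacy classes, then
`⟨a, b ^ g⟩` is infinite for infinitely many `g ∈ U`.

With `U = G` this says: the answer to Q1 is positive for every group with finitely many
conjugacy classes of finite subgroups. If `|G : U|` exceeds the order of every finite subgroup
then there are no finite supplements at all, so the answer is also positive for every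
group whose finite subgroups have bounded order and which has arbitrarily large finite quotients.
-/

set_option autoImplicit false

namespace Pool.Agent.Results.MP_fd6eef_al.FewSupplements

open Subgroup

/-- A subgroup with finite intersection with a finite index subgroup is finite. -/
lemma finite_of_inf_finite {G : Type*} [Group G] (C U : Subgroup G) [U.FiniteIndex]
    (h : ((C ⊓ U : Subgroup G) : Set G).Finite) : (C : Set G).Finite := by
  have h1 : Finite (U.subgroupOf C) := by
    have hf : Finite ((C ⊓ U : Subgroup G) : Set G) := h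
    refine Finite.of_injective
      (fun x : U.subgroupOf C => (⟨x.1.1, x.1.2, x.2⟩ : ((C ⊓ U : Subgroup G) : Set G))) ?_
    intro x y hxy
    have this : x.1.1 = y.1.1 :=
      congrArg (fun z : ((C ⊓ U : Subgroup G) : Set G) => (z : G)) hxy
    exact Subtype.ext (Subtype.ext this)
  have h2 : Finite (C ⧸ U.subgroupOf C) := inferInstance
  have h3 : Finite C := Finite.of_subgroup_quotient (U.subgroupOf C)
  exact h3

/-- The elements conjugating `x` to `y` form a coset of the centralizer of `x`. -/
lemma finite_conjugators {G : Type*} [Group G] (x y : G)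
    (h : ((Subgroup.centralizer ({x} : Set G) : Subgroup G) : Set G).Finite) :
    {g : G | g⁻¹ * x * g = y}.Finite := by
  by_cases hne : ({g : G | g⁻¹ * x * g = y}).Nonempty
  · obtain ⟨g₀, hg₀⟩ := hne
    refine (h.image (fun c => c * g₀)).subset ?_
    intro g hg
    refine ⟨g * g₀⁻¹, ?_, by simp⟩
    replace hg : g⁻¹ * x * g = y := hg
    replace hg₀ : g₀⁻¹ * x * g₀ = y := hg₀
    have e : x = g₀ * y * g₀⁻¹ := by rw [← hg₀]; group
    have this : (g * g₀⁻¹)⁻¹ * x * (g * g₀⁻¹) = x := by
      calc (g * g₀⁻¹)⁻¹ * x * (g * g₀⁻¹) = g₀ * (g⁻¹ * x * g) * g₀⁻¹ := by group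
        _ = g₀ * y * g₀⁻¹ := by rw [hg]
        _ = x := e.symm
    have h2 : x * (g * g₀⁻¹) = (g * g₀⁻¹) * x := by
      calc x * (g * g₀⁻¹) = (g * g₀⁻¹) * ((g * g₀⁻¹)⁻¹ * x * (g * g₀⁻¹)) := by group
        _ = (g * g₀⁻¹) * x := by rw [this]
    show g * g₀⁻¹ ∈ Subgroup.centralizer ({x} : Set G)
    rw [Subgroup.mem_centralizer_singleton_iff]
    exact h2.symm
  · rw [Set.not_nonempty_iff_eq_empty] at hne
    rw [hne]; exact Set.finite_empty

/-- Let `G = ⟨a, b⟩` be infinite and `U` a normal subgroup of finite index such that the finite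
subgroups `K` with `K U = G` fall into finitely many conjugacy classes (represented by the
members of `𝓕`). Then `⟨a, g⁻¹ b g⟩` is infinite for infinitely many `g` in `U`. -/
theorem result {G : Type*} [Group G] [Infinite G] (a b : G)
    (hab : Subgroup.closure ({a, b} : Set G) = ⊤)
    (U : Subgroup G) [U.Normal] [U.FiniteIndex]
    (𝓕 : Set (Subgroup G)) (h𝓕 : 𝓕.Finite)
    (hconj : ∀ K : Subgroup G, (K : Set G).Finite → K ⊔ U = ⊤ →
      ∃ x : G, ∃ K₀ ∈ 𝓕, K = K₀.map (MulAut.conj x).toMonoidHom) :
    {g : G | g ∈ U ∧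
      (Subgroup.closure ({a, g⁻¹ * b * g} : Set G) : Set G).Infinite}.Infinite := by
  by_contra hD
  rw [Set.not_infinite] at hD
  set D : Set G := {g : G | g ∈ U ∧
      (Subgroup.closure ({a, g⁻¹ * b * g} : Set G) : Set G).Infinite} with hDdef
  have htop : ((⊤ : Subgroup G) : Set G).Infinite := by
    rw [Subgroup.coe_top]; exact Set.infinite_univ
  -- the centralizer of `b` is finite
  have hCb : ((Subgroup.centralizer ({b} : Set G) : Subgroup G) : Set G).Finite := by
    apply finite_of_inf_finite _ U
    refine hD.subset ?_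
    rintro c ⟨hc, hcU⟩
    refine ⟨hcU, ?_⟩
    have hc' : c * b = b * c := Subgroup.mem_centralizer_singleton_iff.mp hc
    have : c⁻¹ * b * c = b := by
      rw [mul_assoc, ← hc']; group
    rw [this, hab]
    exact htop
  -- the centralizer of `a` is finite
  have hCa : ((Subgroup.centralizer ({a} : Set G) : Subgroup G) : Set G).Finite := by
    apply finite_of_inf_finite _ U
    refine hD.subset ?_
    rintro c ⟨hc, hcU⟩
    refine ⟨hcU, ?_⟩
    have hc' : c * a = a * c := Subgroup.mem_centralizer_singleton_iff.mp hc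
    have hca : c⁻¹ * a * c = a := by
      rw [mul_assoc, ← hc']; group
    have hset : (Subgroup.closure ({a, c⁻¹ * b * c} : Set G)) =
        (Subgroup.closure ({a, b} : Set G)).map (MulAut.conj c⁻¹).toMonoidHom := by
      rw [MonoidHom.map_closure]
      congr 1
      rw [Set.image_insert_eq, Set.image_singleton]
      simp [hca]
    rw [hset, hab]
    have : (⊤ : Subgroup G).map (MulAut.conj c⁻¹).toMonoidHom = ⊤ := by
      rw [← MonoidHom.range_eq_map]
      exact MonoidHom.range_eq_top.mpr (MulAut.conj c⁻¹).surjective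
    rw [this]
    exact htop
  -- the finite subgroups in play
  set S : Set G := ⋃ K₀ ∈ {K ∈ 𝓕 | (K : Set G).Finite}, ⋃ e ∈ (K₀ : Set G),
      {x : G | x * e * x⁻¹ = a} with hS
  have hSfin : S.Finite := by
    refine Set.Finite.biUnion (h𝓕.subset (Set.sep_subset _ _)) ?_
    rintro K₀ ⟨_, hK₀⟩
    refine Set.Finite.biUnion hK₀ ?_
    intro e _
    refine (finite_conjugators a e hCa).subset ?_
    intro x hx
    replace hx : x * e * x⁻¹ = a := hx
    show x⁻¹ * a * x = e
    rw [← hx]; group
  set T : Set G := ⋃ x ∈ S, ⋃ K₀ ∈ {K ∈ 𝓕 | (K : Set G).Finite},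
      (fun e => x * e * x⁻¹) '' (K₀ : Set G) with hT
  have hTfin : T.Finite := by
    refine Set.Finite.biUnion hSfin ?_
    intro x _
    refine Set.Finite.biUnion (h𝓕.subset (Set.sep_subset _ _)) ?_
    rintro K₀ ⟨_, hK₀⟩
    exact hK₀.image _
  set V : Set G := ⋃ c ∈ T, {g : G | g⁻¹ * b * g = c} with hV
  have hVfin : V.Finite := by
    refine Set.Finite.biUnion hTfin ?_
    intro c _
    exact finite_conjugators b c hCb
  have hUsub : (U : Set G) ⊆ D ∪ V := by
    intro g hg
    by_cases hinf : (Subgroup.closure ({a, g⁻¹ * b * g} : Set G) : Set G).Infinite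
    · exact Or.inl ⟨hg, hinf⟩
    · right
      rw [Set.not_infinite] at hinf
      set K : Subgroup G := Subgroup.closure ({a, g⁻¹ * b * g} : Set G) with hK
      have hsup : K ⊔ U = ⊤ := by
        rw [eq_top_iff, ← hab, Subgroup.closure_le]
        have haK : a ∈ K := Subgroup.subset_closure (by simp)
        have hbK : g⁻¹ * b * g ∈ K := Subgroup.subset_closure (by simp)
        rintro y (rfl | hy)
        · exact (le_sup_left : K ≤ K ⊔ U) haK
        · rw [Set.mem_singleton_iff] at hy
          subst hy
          have h1 : y = (g⁻¹ * y * g) * ((g⁻¹ * y⁻¹ * g) * y) := by group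
          have h2 : (g⁻¹ * y⁻¹ * g) * y ∈ U := by
            have h3 : (g⁻¹ * y⁻¹ * g) * y = g⁻¹ * (y⁻¹ * g * y) := by group
            rw [h3]
            refine U.mul_mem (U.inv_mem hg) ?_
            have := (inferInstance : U.Normal).conj_mem g hg y⁻¹
            simpa using this
          show y ∈ K ⊔ U
          rw [h1]
          exact (K ⊔ U).mul_mem ((le_sup_left : K ≤ K ⊔ U) hbK) ((le_sup_right : U ≤ K ⊔ U) h2)
      obtain ⟨x, K₀, hK₀, hKx⟩ := hconj K hinf hsup
      have hK₀fin : (K₀ : Set G).Finite := by
        have himg : (fun e => x * e * x⁻¹) '' (K₀ : Set G) = (K : Set G) := by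
          rw [hKx]; rfl
        have hinj : Set.InjOn (fun e => x * e * x⁻¹) (K₀ : Set G) := by
          intro u _ v _ huv
          simpa using huv
        exact Set.Finite.of_finite_image (by rw [himg]; exact hinf) hinj
      have haK : a ∈ K := Subgroup.subset_closure (by simp)
      have hbK : g⁻¹ * b * g ∈ K := Subgroup.subset_closure (by simp)
      rw [hKx] at haK hbK
      obtain ⟨e, he, hea⟩ := haK
      obtain ⟨f, hf, hfb⟩ := hbK
      have hxS : x ∈ S := by
        rw [hS]
        simp only [Set.mem_iUnion]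
        exact ⟨K₀, ⟨hK₀, hK₀fin⟩, e, he, hea⟩
      have hbT : g⁻¹ * b * g ∈ T := by
        rw [hT]
        simp only [Set.mem_iUnion]
        exact ⟨x, hxS, K₀, ⟨hK₀, hK₀fin⟩, f, hf, hfb⟩
      rw [hV]
      simp only [Set.mem_iUnion]
      exact ⟨g⁻¹ * b * g, hbT, rfl⟩
  have hUfin : (U : Set G).Finite := (hD.union hVfin).subset hUsub
  have hUfin' : Finite U := hUfin
  have : Finite G := Finite.of_subgroup_quotient U
  exact not_finite G

end Pool.Agent.Results.MP_fd6eef_al.FewSupplements
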