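import Pool.Agent.helper2.Fermat.Gap
import Pool.Agent.helper20.FX.All

namespace Pool.Agent.Results.MP_37e5fa_nt.OddPartGap

/-- There is an absolute constant `c > 0` with the following property. Let `F = 2 ^ (2 ^ m) + 1`
be a Fermat number that is not prime, let `r` be the number of its distinct prime factors and let
`O` be the largest odd divisor of `φ (F)`. Then `log₂ O` is at least `2 ^ m / (10 r)`, at least
`(3 / 8) 2 ^ (m / 2)` and at least `c √(m 2 ^ m)`. -/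
theorem result :
    ∃ c : ℝ, 0 < c ∧ ∀ m : ℕ, ¬ Nat.Prime (2 ^ 2 ^ m + 1) →
      max ((2 : ℝ) ^ m / (10 * ((2 ^ 2 ^ m + 1).primeFactors.card : ℝ)))
          (max (3 / 8 * (2 : ℝ) ^ ((m : ℝ) / 2)) (c * √((m : ℝ) * 2 ^ m))) ≤
        Real.logb 2 ((Nat.totient (2 ^ 2 ^ m + 1) /
          2 ^ (Nat.totient (2 ^ 2 ^ m + 1)).factorization 2 : ℕ) : ℝ) := by
  obtain ⟨c0, hc0, hODC⟩ := Pool.Agent.FXM.t_ODC
  refine ⟨c0, hc0, ?_⟩
  intro m hF
  have hm5 : 5 ≤ m := by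
    by_contra hcon
    have hm : m < 5 := by omega
    interval_cases m <;> exact hF (by norm_num)
  have hM24 : 24 ≤ 2 ^ m := by
    calc 24 ≤ 2 ^ 5 := by norm_num
      _ ≤ 2 ^ m := Nat.pow_le_pow_right (by norm_num) hm5
  have h3' := hODC (2 ^ m) hM24 hF
  have hlog : Real.logb 2 (((2 ^ m : ℕ)) : ℝ) = m := by
    push_cast
    rw [Real.logb_pow, Real.logb_self_eq_one (by norm_num), mul_one]
  rw [hlog] at h3'
  have hcomm : (((2 ^ m : ℕ)) : ℝ) * (m : ℝ) = (m : ℝ) * 2 ^ m := by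
    push_cast
    ring
  rw [hcomm] at h3'
  obtain ⟨F, hFdef⟩ : ∃ F, F = 2 ^ 2 ^ m + 1 := ⟨_, rfl⟩
  obtain ⟨h1, h2⟩ := Pool.Agent.helper2.Fermat.gap_mul m F hFdef (hFdef ▸ hF)
  have hFbig : 2 ≤ F := by
    rw [hFdef]; exact Nat.succ_le_succ (Nat.one_le_two_pow)
  rw [← hFdef] at h3' ⊢
  obtain ⟨c, hc⟩ : ∃ c, c = F.primeFactors.card := ⟨_, rfl⟩
  obtain ⟨O, hO⟩ : ∃ O, O = F.totient / 2 ^ F.totient.factorization 2 := ⟨_, rfl⟩
  have hc1 : 1 ≤ c := by
    have : F.primeFactors.Nonempty := by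
      rw [Nat.nonempty_primeFactors]
      omega
    rw [hc]
    exact Finset.card_pos.2 this
  rw [← hO] at h3'
  rw [← hc, ← hO] at h1 h2
  rw [← hc, ← hO]
  have hcR : (0 : ℝ) < c := by exact_mod_cast (by omega : 0 < c)
  apply max_le
  · rw [div_le_iff₀ (by positivity)]
    linarith
  · refine max_le ?_ h3'
    -- `c * log 3 ≤ log O`
    have h3 : (3 / 2 : ℝ) ≤ Real.logb 2 3 := by
      rw [Real.le_logb_iff_rpow_le (by norm_num) (by norm_num)]
      have e : ((2 : ℝ) ^ (3 / 2 : ℝ)) ^ 2 = 8 := by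
        rw [← Real.rpow_natCast, ← Real.rpow_mul (by norm_num)]
        norm_num
      nlinarith [Real.rpow_pos_of_pos (by norm_num : (0 : ℝ) < 2) (3 / 2)]
    have hOR : ((3 : ℝ) ^ c) ≤ O := by exact_mod_cast h1
    have h4 : (c : ℝ) * Real.logb 2 3 ≤ Real.logb 2 O := by
      rw [← Real.logb_pow]
      exact Real.logb_le_logb_of_le (by norm_num) (by positivity) hOR
    have h5 : (c : ℝ) * (3 / 2) ≤ Real.logb 2 O := by
      refine le_trans ?_ h4
      gcongr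
    obtain ⟨L, hL⟩ : ∃ L, L = Real.logb 2 (O : ℝ) := ⟨_, rfl⟩
    rw [← hL] at h2 h5 ⊢
    have hL0 : 0 ≤ L := le_trans (by positivity) h5
    obtain ⟨t, ht⟩ : ∃ t : ℝ, t = (2 : ℝ) ^ ((m : ℝ) / 2) := ⟨_, rfl⟩
    have ht0 : 0 < t := by rw [ht]; positivity
    have ht2 : t ^ 2 = 2 ^ m := by
      rw [ht, ← Real.rpow_natCast, ← Real.rpow_mul (by norm_num)]
      norm_num
    rw [← ht]
    rw [← ht2] at h2
    have h6 : t ^ 2 / 10 ≤ (2 / 3 * L) * L := by
      refine h2.trans ?_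
      apply mul_le_mul_of_nonneg_right _ hL0
      linarith
    by_contra hcon
    push Not at hcon
    nlinarith

end Pool.Agent.Results.MP_37e5fa_nt.OddPartGap
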