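import Pool.Agent.helper2.Fermat.GapM
import Pool.Agent.helper20.FX.All

namespace Pool.Agent.Results.MP_a70bdc_nt.OddPartTotient

/-- There is an absolute constant `c > 0` with the following property. Let `n = 2 ^ j` be a power
of two such that `E = n ^ n + 1` is not prime, let `r` be the number of distinct primes dividing
`E` and let `O` be the largest odd divisor of `φ (E)`. Then `log₂ O` is at least
`n log₂ n / (24 r)`, at least `√(n log₂ n) / 4` and at least `c √n log₂ n`. -/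
theorem result :
    ∃ c : ℝ, 0 < c ∧ ∀ j n : ℕ, n = 2 ^ j → ¬ Nat.Prime (n ^ n + 1) →
      max ((n : ℝ) * Real.logb 2 n / (24 * ((n ^ n + 1).primeFactors.card : ℝ)))
          (max (√((n : ℝ) * Real.logb 2 n) / 4) (c * √(n : ℝ) * Real.logb 2 n)) ≤
        Real.logb 2 ((Nat.totient (n ^ n + 1) /
          2 ^ (Nat.totient (n ^ n + 1)).factorization 2 : ℕ) : ℝ) := by
  obtain ⟨c0, hc0, hODC⟩ := Pool.Agent.FXM.t_ODC
  refine ⟨c0, hc0, ?_⟩
  intro j n hn hE
  have hj : 3 ≤ j := by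
    by_contra hcon
    have hj : j < 3 := by omega
    interval_cases j
    · exact hE (by rw [hn]; norm_num)
    · exact hE (by rw [hn]; norm_num)
    · exact hE (by rw [hn]; norm_num)
  have hlog : Real.logb 2 (n : ℝ) = j := by
    rw [hn]; push_cast
    rw [Real.logb_pow, Real.logb_self_eq_one (by norm_num), mul_one]
  have hM : 24 ≤ j * 2 ^ j := by
    calc 24 = 3 * 2 ^ 3 := by norm_num
      _ ≤ j * 2 ^ j := Nat.mul_le_mul hj (Nat.pow_le_pow_right (by norm_num) hj)
  have hE' : n ^ n + 1 = 2 ^ (j * 2 ^ j) + 1 := by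
    rw [hn, ← pow_mul]
  have h3 := hODC (j * 2 ^ j) hM (by rw [← hE']; exact hE)
  rw [← hE'] at h3
  obtain ⟨E, hEdef⟩ : ∃ E, E = n ^ n + 1 := ⟨_, rfl⟩
  have h := Pool.Agent.helper2.FermatM.gap_M (j * 2 ^ j) E hM (hEdef.trans hE')
    (by rw [hEdef]; exact hE)
  have hcast : ((j * 2 ^ j : ℕ) : ℝ) = (n : ℝ) * Real.logb 2 n := by
    rw [hlog, hn]; push_cast; ring
  rw [hcast] at h h3
  rw [← hEdef] at h3 ⊢
  refine max_le h.1 (max_le h.2 (le_trans ?_ h3))
  rw [mul_assoc]
  apply mul_le_mul_of_nonneg_left _ hc0.le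
  have hj1 : (1 : ℝ) ≤ j := by exact_mod_cast (by omega : 1 ≤ j)
  have hn1 : (1 : ℝ) ≤ n := by
    rw [hn]; push_cast; exact one_le_pow₀ (by norm_num)
  rw [hlog]
  have h4 : (j : ℝ) ≤ Real.logb 2 ((n : ℝ) * j) := by
    rw [Real.logb_mul (by positivity) (by positivity), hlog]
    have : 0 ≤ Real.logb 2 (j : ℝ) := Real.logb_nonneg (by norm_num) hj1
    linarith
  have h5 : √(n : ℝ) * j = √((n : ℝ) * j * j) := by
    rw [mul_assoc, Real.sqrt_mul (by positivity), Real.sqrt_mul_self (by positivity)]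
  rw [h5]
  apply Real.sqrt_le_sqrt
  exact mul_le_mul_of_nonneg_left h4 (by positivity)

end Pool.Agent.Results.MP_a70bdc_nt.OddPartTotient
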