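import Pool.Agent.helper76.Fer.Final

/-!
# Numbers `n ^ n + 1` without small divisors

There are infinitely many `n`, all of the only possible shape `n = 2 ^ (2 ^ s)`, such that every
divisor `d > 1` of `n ^ n + 1` is larger than `c n log₂ n · (log s loglog s / logloglog s)`.
-/

namespace Pool.Agent.Results.MP_a70bdc_nt.NoSmallDivisors

open Pool.Agent.helper76.Fer

theorem result : ∃ c : ℝ, 0 < c ∧ ∀ N : ℕ, ∃ s n : ℕ, N < s ∧ n = 2 ^ 2 ^ s ∧
    ∀ d : ℕ, 1 < d → d ∣ n ^ n + 1 →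
      c * n * Real.logb 2 n *
        (Real.log s * Real.log (Real.log s) / Real.log (Real.log (Real.log s))) < d := by
  obtain ⟨c, hc, h⟩ := npown_form
  refine ⟨c, hc, ?_⟩
  intro N
  obtain ⟨s, hs, hd⟩ := h N
  refine ⟨s, 2 ^ 2 ^ s, hs, rfl, ?_⟩
  intro d hd1 hd2
  have h1 := hd d hd1 hd2
  have e : Real.logb 2 ((2 ^ 2 ^ s : ℕ) : ℝ) = 2 ^ s := by
    push_cast
    rw [Real.logb_pow]
    simp
  rw [e]
  push_cast
  rw [mul_assoc c]
  exact h1

end Pool.Agent.Results.MP_a70bdc_nt.NoSmallDivisors
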