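import Pool.Agent.helper76.LP.Fin

/-!
# Tate characters in the quadratic range are standard

`π : Fin (2d) → Fin s` describes a product of `s` Fermat varieties of degree `m` with `2d`
coordinates. Let `Λ` be the set of the odd primes dividing `m`, together with `4` if `4 ∣ m`. If
`8 d < φ(x) φ(y)` (`16 d` if `m` is even and `x, y` are odd) for all `x < y` in `Λ`, or if `m` is
prime to 6 and `d ≤ 3`, then every Tate character is trivial up to standard elements (pairs and
Davenport–Hasse elements, all algebraic).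
-/

namespace Pool.Agent.helper76.Reserve.QuadraticRange

open Pool.Agent.helper76.FV Pool.Agent.helper34.DH Pool.Agent.helper76.LP

theorem result (d : ℕ) {s : ℕ} (π : Fin (2 * d) → Fin s) (m : ℕ) (hm : 0 < m)
    (h : (∀ x y : ℕ, x ∣ m → y ∣ m → (x = 4 ∨ x.Prime ∧ Odd x) → (y = 4 ∨ y.Prime ∧ Odd y) →
        x < y → (if Even m ∧ Odd x ∧ Odd y then 16 else 8) * d < x.totient * y.totient) ∨
      (Nat.Coprime m 6 ∧ d ≤ 3))
    (a : Fin (2 * d) → ZMod m) :
    IsTateChar m π a ↔ (∀ i, a i ≠ 0) ∧ BlockZero π a ∧ StdEquiv (pts a) 0 := by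
  refine tate_quadratic m hm d ?_ π a
  rcases h with h | h
  · left
    intro x y hx hy hxy
    exact h x y hx.1 hy.1 hx.2 hy.2 hxy
  · right
    exact h

end Pool.Agent.helper76.Reserve.QuadraticRange
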