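import Pool.Agent.helper76.FV.Stmt

/-!
# The number of Tate classes on the Fermat variety of dimension `2r` and degree `m`

It is an exact quasi-polynomial in `m`, of degree `r + 1` with leading coefficient `(2r+1)!!`.
-/

namespace Pool.Agent.Results.MP_3703a7_ag.QuasiPolynomial

open Pool.Agent.helper76.FV

theorem result (r : ℕ) : ∃ N : ℕ, 0 < N ∧ ∃ P : ℕ → Polynomial ℚ,
    (∀ c, (P c).natDegree = r + 1 ∧ (P c).leadingCoeff = (Nat.doubleFactorial (2 * r + 1) : ℚ)) ∧
    ∀ m : ℕ, 0 < m →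
      (Set.ncard {a : Fin (2 * r + 2) → ZMod m | IsTateFermat m r a} : ℚ)
        = (P (m % N)).eval (m : ℚ) :=
  tate_quasi r

end Pool.Agent.Results.MP_3703a7_ag.QuasiPolynomial
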