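import Pool.Agent.helper76.LP.Main2

/-!
# Tate characters of Fermat varieties whose degree has small prime factors

`π : Fin (2d) → Fin s` describes a product of `s` Fermat varieties of degree `m` with `2d`
coordinates, `d` arbitrary. If the prime factors of `m` are among `2, 3, 5` or among `2, 3, 7`, or
if `4` does not divide `m` and they are among `2, 3, 11` or among `2, 3, 13`, then every Tate
character is trivial up to standard elements (pairs and Davenport–Hasse elements) and Tate
characters of Fermat surfaces, which are all algebraic.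
-/

namespace Pool.Agent.Results.MP_3703a7_ag.SmallPrimes

open Pool.Agent.helper76.FV Pool.Agent.helper34.DH Pool.Agent.helper76.LP

theorem result (m : ℕ) (hm : 0 < m)
    (h : m.primeFactors ⊆ {2, 3, 5} ∨ m.primeFactors ⊆ {2, 3, 7} ∨
      (¬ 4 ∣ m ∧ m.primeFactors ⊆ {2, 3, 11}) ∨ (¬ 4 ∣ m ∧ m.primeFactors ⊆ {2, 3, 13}))
    (d : ℕ) {s : ℕ} (π : Fin (2 * d) → Fin s) (a : Fin (2 * d) → ZMod m) :
    IsTateChar m π a ↔ (∀ i, a i ≠ 0) ∧ BlockZero π a ∧ SurfEquiv (pts a) 0 := by
  refine tate_few_primes m hm ?_ d π a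
  intro x y hx hy hxy
  have key : ∀ (s : Finset ℕ), m.primeFactors ⊆ s → ∀ z, Lam m z → z = 4 ∨ (z ∈ s ∧ z ≠ 2) := by
    intro s hs z hz
    rcases hz.2 with h1 | h1
    · exact Or.inl h1
    · right
      refine ⟨hs (Nat.mem_primeFactors.2 ⟨h1.1, hz.1, hm.ne'⟩), ?_⟩
      rintro rfl
      exact absurd h1.2 (by decide)
  have h4 : ¬ 4 ∣ m → ∀ z, Lam m z → z ≠ 4 := by
    rintro h z hz rfl
    exact h hz.1
  rcases h with h | h | ⟨h0, h⟩ | ⟨h0, h⟩
  · have h1 := key _ h x hx
    have h2 := key _ h y hy
    simp only [Finset.mem_insert, Finset.mem_singleton] at h1 h2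
    have h3 : x = 3 ∨ x = 4 ∨ x = 5 := by omega
    have h5 : y = 3 ∨ y = 4 ∨ y = 5 := by omega
    rcases h3 with rfl | rfl | rfl <;> rcases h5 with rfl | rfl | rfl <;> first | omega | decide
  · have h1 := key _ h x hx
    have h2 := key _ h y hy
    simp only [Finset.mem_insert, Finset.mem_singleton] at h1 h2
    have h3 : x = 3 ∨ x = 4 ∨ x = 7 := by omega
    have h5 : y = 3 ∨ y = 4 ∨ y = 7 := by omega
    rcases h3 with rfl | rfl | rfl <;> rcases h5 with rfl | rfl | rfl <;> first | omega | decide
  · have h1 := key _ h x hx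
    have h2 := key _ h y hy
    have h6 := h4 h0 x hx
    have h7 := h4 h0 y hy
    simp only [Finset.mem_insert, Finset.mem_singleton] at h1 h2
    have h3 : x = 3 ∨ x = 11 := by omega
    have h5 : y = 3 ∨ y = 11 := by omega
    rcases h3 with rfl | rfl <;> rcases h5 with rfl | rfl <;> first | omega | decide
  · have h1 := key _ h x hx
    have h2 := key _ h y hy
    have h6 := h4 h0 x hx
    have h7 := h4 h0 y hy
    simp only [Finset.mem_insert, Finset.mem_singleton] at h1 h2
    have h3 : x = 3 ∨ x = 13 := by omega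
    have h5 : y = 3 ∨ y = 13 := by omega
    rcases h3 with rfl | rfl <;> rcases h5 with rfl | rfl <;> first | omega | decide

end Pool.Agent.Results.MP_3703a7_ag.SmallPrimes
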