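import Pool.Agent.helper76.FV.Stmt3

/-!
# Structure of the set of Tate classes on products of Fermat varieties, for all degrees

`π : Fin k → Fin s` describes a product of `s` Fermat varieties of degree `m` (the coordinate `i`
belongs to the factor `π i`, whose dimension is `bsize π (π i) - 2`), and `2 d + oddBlocks π = k`.
Finitely many families describe the Tate characters of all degrees `m`; each of them consists of
decomposable points or has rank less than `d`. Hence all but `O(m^(d-1))` Tate characters are
decomposable, while at least `m^d - k m^(d-1)` are.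
-/

namespace Pool.Agent.Results.MP_3703a7_ag.TateStructure

open Pool.Agent.helper76.FV

theorem result {k s : ℕ} (π : Fin k → Fin s) (h1 : ∀ j, bsize π j ≠ 1)
    (h2 : Even (oddBlocks π)) (d : ℕ) (hd : 2 * d + oddBlocks π = k) :
    ∃ L : List (Fam k), ∃ C : ℕ,
      (∀ H ∈ L, (∀ x, H.Mem x → PairedQ x) ∨ H.rank < d) ∧
      ∀ m : ℕ, 0 < m →
        (∀ a : Fin k → ZMod m, IsTateChar m π a ↔
          (∀ i, a i ≠ 0) ∧ ∃ H ∈ L, H.Mem (fun i => ((a i).val : ℚ) / m)) ∧
        m * Set.ncard {a : Fin k → ZMod m | IsTateChar m π a ∧ ¬ Paired a} ≤ C * m ^ d ∧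
        m ^ (d + 1) ≤ m * Set.ncard {a : Fin k → ZMod m | IsTateChar m π a ∧ Paired a}
          + k * m ^ d :=
  tate_structure π h1 h2 d hd

end Pool.Agent.Results.MP_3703a7_ag.TateStructure
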