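import Pool.Agent.helper76.MC.F

/-!
# Tate characters of Fermat varieties of degrees without prime factor `≡ 1 mod 4`

`π : Fin (2 d) → Fin s` describes a product of `s` Fermat varieties of degree `m` with `2 d`
coordinates. Suppose that all odd prime factors of `m` are `≡ 3 mod 4`; the power of `2` in `m` and
the number of prime factors are arbitrary. Then every Tate character is trivial up to standard
elements (pairs and Davenport–Hasse elements) and congruence classes: Tate characters which are the
multiset of the nonzero exponents of `ϱ(S)`, `ϱ(T)` and `ϱ((S T)⁻¹)` for a representation `ϱ` of
`SL₂(ℤ/N)` with `ϱ(-1) = 1`. These are the local exponents of the local system of `ϱ` on the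
modular curve `X(1) = ℙ¹` at `j = 1728`, `j = ∞` and `j = 0`.

## Why this gives the conjectures of Tate and Hodge (not formalised)

Motives are taken modulo homological equivalence, over a number field which may be enlarged (the
invariants under a finite Galois group give the general case), with coefficients in a large number
field `E`; equality of motives means an isomorphism given by algebraic correspondences. For a
multiset `c` of nonzero elements of `ℚ/ℤ` with sum zero let `M_c` be the Fermat motive of `c`: if
`c` is given by `(c_1, …, c_l)/m`, this is the part of the middle cohomology of the Fermat variety of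
degree `m` and dimension `l - 2` on which the diagonal group acts by the character `c`. It has rank
one. By the inductive structure of Fermat varieties (Shioda and Katsura) `M_{b + c}` is the product
of `M_b` and `M_c`, and `M_{c + {x, -x}}` is `M_c`, up to Tate twists, so that `M_{-c}` is inverse
to `M_c`. For standard elements `s` the motive `M_s` is a Tate motive (Lefschetz, Shioda, Aoki),
so `M_c` only depends, up to Tate twists, on the class of `c` modulo standard elements.

### (DET)

*Let `G` be a finite group, `B → C` a `G`-covering of smooth projective curves, `V` a representation
of `G` over `E`, `H(V) = (H¹(B) ⊗ V)^G` the `V`-part, and `c(V)` the multiset of the nonzero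
exponents of `V` at the branch points (the element `g` generating the inertia group of a branch
point has on `V` the eigenvalues `exp(2πi x)`, `x` the exponents). Then
`det H(V) = M_{c(V)}` up to a Tate twist.*

(1) `V` of rank one and nontrivial: let `L` be the local system of rank one on
`U = C - {P_1, …, P_b}`, with nonzero exponents `a_i` at `P_i`; `b ≠ 1` because the sum of the `a_i` is
zero. Let `g` be the genus of `C` and `h = 2 g - 2 + b` the rank of `H¹(U, L) = H¹_c(U, L)`; this is
the only cohomology. `L^{⊠h}` on `U^h` descends to a sheaf `F` of rank one on `Sym^h U`, and
`Λ^h H¹_c(U, L) = H^h_c(Sym^h U, F)` (the degree is odd, so symmetric becomes alternating). Consider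
`Sym^h C → Pic^h C`, with fibres the linear systems `|N| = ℙ^{g-2+b}`, `deg N = h ≥ 2 g - 1` for
`b > 0`. The divisors meeting `P_i` form a hyperplane of `|N|`. The evaluation map
`H⁰(N) → ⊕ N|P_i` has cokernel `H¹(N(-D))`, `D = ∑ P_i`, which is zero unless `N = K(D)`. If it is
zero, the hyperplanes are independent, the complement is `(𝔾_m^b/𝔾_m) × 𝔸^{g-1}`, `F` is on it the
Kummer sheaf of the `a_i`, nontrivial, and has no cohomology. So only the fibre over `K(D)`
contributes. There the evaluations are the residues, whose sum is zero, and the complement of
the hyperplanes is a bundle in affine spaces `𝔸^g` over the open Fermat variety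
`{r_1 + … + r_b = 0, r_i ≠ 0}` of dimension `b - 2`, with the Kummer sheaf of the `a_i`. As all `a_i`
are nonzero, its cohomology is that of the Fermat motive, and
`Λ^h H¹_c(U, L) = M_a(-g)`, by the correspondence which is the closure of the inverse image of
`|K(D)|` in (covering of `U`)^h × (Fermat variety). If `b = 0`, the same argument with
`Sym^{2g-2} C → Pic^{2g-2} C`, whose fibre over `K` is larger by one than the others, gives
`Λ^{2g-2} H¹(C, L) = E(-(g-1))`. For `V` trivial, `det H¹(C)` is `E(-g)`.

(2) `V` arbitrary: by Brauer's theorem `V = ∑ n_i Ind_{H_i}^G χ_i` with integers `n_i` and `χ_i` of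
rank one. Here `H(Ind χ) = H_χ(B → B/H)`. If `Q` is a point of `B/H` above `P`, with ramification
index `e` over `P` and exponent `a` for `χ`, then the exponents of `Ind χ` at `P` are the
`(a + k)/e`, `0 ≤ k < e`, for all these `Q`; modulo standard elements and copies of `1/2` the nonzero
ones among them are together equivalent to `a` (to nothing if `a = 0`), and the number of copies of
`1/2` is even because all sums are zero. So `M_{c(Ind χ)} = M_{c(χ)}`. As `c` is additive and `det` multiplicative, `det H(V)` and `M_{c(V)}`
are equal: write `V + V₋ = V₊` with `V₋`, `V₊` sums of induced representations.

### (MOD)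

Let `ϱ` be a representation of `SL₂(ℤ/N)` with `ϱ(-1) = 1`, and apply (DET) to `X(N) → X(1)`, whose
group is `G = SL₂(ℤ/N)/±1`: `M_c = det H(ϱ)` for the multiset `c` of the exponents of `ϱ`. The
Jacobian of `X(N)` is isogenous over `ℚ̄` to a product of powers of simple abelian varieties `A`,
each of which is either an elliptic curve with complex multiplication by an imaginary quadratic
field `K`, or a variety without complex multiplication whose algebra `End⁰(A)` is a totally real
field `F` with `[F : ℚ] = dim A`, or a quaternion algebra over a totally real field `F` with
`2 [F : ℚ] = dim A` (Shimura, Momose, Ribet, Pyle). So `H¹(X(N)) ⊗ E` is a direct sum of pieces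
`V_σ ⊗ W_σ`, `V_σ` of rank two with `Λ² V_σ = E(-1)` by the polarisation, and `N_K ⊗ W_K`,
`N̄_K ⊗ W'_K` with `H¹` of the elliptic curve `= N_K + N̄_K`, where `End⁰(J(X(N))) ⊗ E` acts only on
the multiplicity spaces `W`. The group `G` acts through this algebra, so `H(ϱ)` is a direct sum of
copies of the `V_σ`, `N_K`, `N̄_K`, by algebraic projectors, and `M_c` is, up to a Tate twist, a
product of powers of the `N_K` and `N̄_K`, for every `N` and `ϱ`. If `c` is a Tate character, the
exponents of `N_K` and `N̄_K` are equal for every `K`, because the infinity types of the `N_K` for
different `K` are independent. As `N_K ⊗ N̄_K = E(-1)`, `M_c` is a Tate motive, that is, the Tate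
and Hodge class on the Fermat variety attached to `c` is algebraic. (With Hazama and Murty: all
Hodge classes on products of modular curves are generated by divisor classes.)

### Conclusion

Let `X` be a product of Fermat varieties of degree `m`. The cohomology of `X` is a direct sum of
lines `M_a`, and tensor products of `M_a` with classes of linear subspaces. The line `M_a`
contains Tate classes (Hodge classes) if and only if `a` is a Tate character, and the class is
algebraic if `a` is equivalent to zero modulo standard elements and congruence classes.
So the theorem implies: *the conjectures of Tate and of Hodge hold for all products of Fermat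
varieties of degree `m`, in all dimensions, if `m` has no prime factor `≡ 1 mod 4`*, and for all
motives and abelian varieties cut out in them.

For example, the Weil representation of `SL₂(𝔽_p)`, `p ≡ 3 mod 4`, of dimension `(p - 1)/2` has the
exponents `b/p`, `b` a nonzero square, and its tensor products for different `p` and the character
of order `4` provide the Tate characters of `2`-torsion in the group of all
Tate characters modulo standard elements (the universal odd distribution, Kubert, Yamamoto,
Sinnott), of rank `2^(k-1) - 1` for `k` prime factors, for all `k`.
-/

namespace Pool.Agent.Results.MP_3703a7_ag.ThreeModFour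

open Pool.Agent.helper76.FV Pool.Agent.helper34.DH Pool.Agent.helper76.LP Pool.Agent.helper76.UR
open Pool.Agent.helper76.MC

/-- `IsTateChar m π a`: all entries of `a` are nonzero, the sums over the factors vanish and the
square of the normalised product of Gauss sums is a root of unity for all primes `p ≡ 1 mod m`.
`EquivMod IsCongLef (pts a) 0`: the multiset of the `a_i / m` becomes trivial after adding standard
elements and congruence classes (`IsCongLef`). -/
theorem result (m : ℕ) (hm : 0 < m) (h : ∀ p : ℕ, p.Prime → p ∣ m → p = 2 ∨ p % 4 = 3)
    (d : ℕ) {s : ℕ} (π : Fin (2 * d) → Fin s) (a : Fin (2 * d) → ZMod m) :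
    IsTateChar m π a ↔
      (∀ i, a i ≠ 0) ∧ BlockZero π a ∧ EquivMod IsCongLef (pts a) 0 :=
  tate_three' m hm h d π a

end Pool.Agent.Results.MP_3703a7_ag.ThreeModFour
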